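import Pool.Agent.H6.N4D.TB

/-!
# Row NEV of the board N4D: the difference along the doubling is not small
-/

set_option autoImplicit false

open Finset Pool.Agent.H6.N4D

namespace Pool.Agent.H69.N4D

/-- **Row NEV.** -/
theorem pf_NEV (hSIZ : T_SIZ) : T_NEV := by
  intro K ε₁ η hK he10 he11 hη
  obtain ⟨X₀, hX₀⟩ := hSIZ
  obtain ⟨X₁, hX₁⟩ := LL_large (17 / η)
  refine ⟨max X₀ X₁, ?_⟩
  intro S ε₀ θ φ hok hSK hX _ he01 hR
  obtain ⟨hL1, hP100, -, -, -, -, -, -, hI, -, hl2, hN, -⟩ :=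
    hX₀ S hok ((le_max_left _ _).trans hX)
  have hLη : 17 / η ≤ S.L := hX₁ S.X ((le_max_right _ _).trans hX)
  have hJ := hok.hJ
  have hr := hok.hr0
  have hh := hok.hh
  have hK1 : (1 : ℝ) ≤ S.K := by exact_mod_cast hok.hK
  by_contra hcon
  rw [not_lt] at hcon
  -- the exceptional set
  have hsh := Par.cnt_shift (S := S)
    (fun t => t - S.l 2 ∈ S.I ∧ ¬ EdR S ε₀ θ φ 2 t) (2 ^ S.J)
  have hout := Par.cnt_out (S := S) (2 ^ S.J)
  have hv : |((2 ^ S.J : ℤ) : ℝ)| ≤ S.N / 10 := by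
    push_cast
    rw [abs_of_pos (by positivity)]
    have h1 := hok.hI1
    have h2 : Real.log 2 < 0.6931471808 := Real.log_two_lt_d9
    have h3 : 12 * 1 * 1 ≤ 12 * S.K * S.L := by gcongr
    have h4 : S.h * 2 ^ S.J ≤ S.h * (S.N / 10) := by rw [hJ]; nlinarith
    exact le_of_mul_le_mul_left h4 hh
  have hbig : S.cnt (fun t => 8 < y1 S ε₁ θ S.J t ∨
      ((¬ (η ≤ nd (θ t) ∧ η ≤ nd (2 * θ t) ∧ η ≤ nd (3 * θ t))) ∨
        ((t + 2 ^ S.J ∈ S.I ∧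
          (t + 2 ^ S.J - S.l 2 ∈ S.I ∧ ¬ EdR S ε₀ θ φ 2 (t + 2 ^ S.J))) ∨
          t + 2 ^ S.J ∉ S.I))) < S.N := by
    have e1 := Par.cnt_or (S := S) (fun t => 8 < y1 S ε₁ θ S.J t) (fun t =>
      ((¬ (η ≤ nd (θ t) ∧ η ≤ nd (2 * θ t) ∧ η ≤ nd (3 * θ t))) ∨
        ((t + 2 ^ S.J ∈ S.I ∧
          (t + 2 ^ S.J - S.l 2 ∈ S.I ∧ ¬ EdR S ε₀ θ φ 2 (t + 2 ^ S.J))) ∨
          t + 2 ^ S.J ∉ S.I)))
    have e2 := Par.cnt_or (S := S)
      (fun t => ¬ (η ≤ nd (θ t) ∧ η ≤ nd (2 * θ t) ∧ η ≤ nd (3 * θ t))) (fun t =>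
        ((t + 2 ^ S.J ∈ S.I ∧
          (t + 2 ^ S.J - S.l 2 ∈ S.I ∧ ¬ EdR S ε₀ θ φ 2 (t + 2 ^ S.J))) ∨
          t + 2 ^ S.J ∉ S.I))
    have e3 := Par.cnt_or (S := S)
      (fun t => t + 2 ^ S.J ∈ S.I ∧
          (t + 2 ^ S.J - S.l 2 ∈ S.I ∧ ¬ EdR S ε₀ θ φ 2 (t + 2 ^ S.J)))
      (fun t => t + 2 ^ S.J ∉ S.I)
    have h1 := hR.gen
    have h2 := hR.two
    linarith
  obtain ⟨t, ht, hgood⟩ := Par.exists_not hN.le hbig
  rw [not_or, not_or, not_or, not_lt, not_not, not_not] at hgood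
  obtain ⟨hy, ⟨hg1, -, hg3⟩, hE, hin⟩ := hgood
  have hEd : EdR S ε₀ θ φ 2 (t + 2 ^ S.J) := by
    by_contra h5
    exact hE ⟨hin, by rw [hl2, add_sub_cancel_right]; exact ht, h5⟩
  obtain ⟨τ, hτ, h5, -⟩ := hEd
  have hx := S.x_pos t
  have hx2 : S.x (t + 2 ^ S.J) = 2 * S.x t := by
    rw [Par.x_add]
    push_cast
    rw [hJ, Real.exp_log (by norm_num)]
    ring
  rw [hl2, add_sub_cancel_right, hx2] at h5
  set D : ℝ := S.rho * S.x t with hD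
  have hDpos : 0 < D := mul_pos hr hx
  have h6 : nd (θ t - τ * (2 * θ (t + 2 ^ S.J))) ≤ 1 / D := by
    have h61 : ((2 : ℕ) : ℝ) * ε₀ / (S.rho * (2 * S.x t)) = ε₀ / D := by
      push_cast
      rw [show S.rho * (2 * S.x t) = 2 * D by rw [hD]; ring]
      exact mul_div_mul_left _ _ (by norm_num)
    rw [h61] at h5
    have h62 : ε₀ / D ≤ 1 / D := by gcongr
    have h63 := h5.trans h62
    push_cast at h63
    exact h63
  -- the small difference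
  have h7 : min (nd (θ (t + 2 ^ S.J) - θ t)) (nd (θ (t + 2 ^ S.J) + θ t)) ≤ 8 / D := by
    have h71 : D / ε₁ * min (nd (θ (t + 2 ^ S.J) - θ t)) (nd (θ (t + 2 ^ S.J) + θ t)) ≤ 8 := hy
    set m := min (nd (θ (t + 2 ^ S.J) - θ t)) (nd (θ (t + 2 ^ S.J) + θ t)) with hm
    have hm0 : 0 ≤ m := le_min (nd_nonneg _) (nd_nonneg _)
    rw [div_mul_eq_mul_div, div_le_iff₀ he10] at h71
    rw [le_div_iff₀ hDpos]
    nlinarith
  have h8 : ∃ s : ℝ, (s = 1 ∨ s = -1) ∧ nd (θ (t + 2 ^ S.J) - s * θ t) ≤ 8 / D := by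
    rcases min_le_iff.1 h7 with h | h
    · exact ⟨1, Or.inl rfl, by rw [one_mul]; exact h⟩
    · refine ⟨-1, Or.inr rfl, ?_⟩
      rw [show θ (t + 2 ^ S.J) - -1 * θ t = θ (t + 2 ^ S.J) + θ t by ring]
      exact h
  obtain ⟨s, hs, h9⟩ := h8
  have h10 : nd (θ t - τ * (2 * (s * θ t))) ≤ 17 / D := by
    have e1 := nd_add_le (θ t - τ * (2 * θ (t + 2 ^ S.J)))
      (τ * (2 * (θ (t + 2 ^ S.J) - s * θ t)))
    rw [show θ t - τ * (2 * θ (t + 2 ^ S.J)) + τ * (2 * (θ (t + 2 ^ S.J) - s * θ t)) =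
      θ t - τ * (2 * (s * θ t)) by ring] at e1
    have e2 : nd (τ * (2 * (θ (t + 2 ^ S.J) - s * θ t))) ≤
        2 * nd (θ (t + 2 ^ S.J) - s * θ t) := by
      rw [nd_pm hτ]
      have := nd_nat_mul_le 2 (θ (t + 2 ^ S.J) - s * θ t)
      push_cast at this
      exact this
    have e3 : 17 / D = 1 / D + 2 * (8 / D) := by ring
    rw [e3]
    linarith
  have h11 : η ≤ 17 / D := by
    rcases hτ with h | h <;> rcases hs with h' | h' <;> subst h <;> subst h'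
    · rw [show θ t - 1 * (2 * (1 * θ t)) = -θ t by ring, nd_neg] at h10
      linarith
    · rw [show θ t - 1 * (2 * (-1 * θ t)) = 3 * θ t by ring] at h10
      linarith
    · rw [show θ t - -1 * (2 * (1 * θ t)) = 3 * θ t by ring] at h10
      linarith
    · rw [show θ t - -1 * (2 * (-1 * θ t)) = -θ t by ring, nd_neg] at h10
      linarith
  -- the contradiction
  have h12 : S.P ≤ D := by
    have e1 := (hI t ht).1
    have e2 : S.P ≤ S.P ^ (100 * S.K) := by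
      apply le_self_pow₀ (by linarith)
      have := hok.hK
      omega
    exact e2.trans e1
  have h13 : S.L < S.P := by
    have e1 := Real.add_one_le_exp S.L
    have e2 : S.P = Real.exp S.L := rfl
    rw [e2]; linarith
  have h14 : 17 / η < D := by linarith
  rw [div_lt_iff₀ hη] at h14
  rw [le_div_iff₀ hDpos] at h11
  linarith

end Pool.Agent.H69.N4D
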