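import Pool.Agent.H6.N4D.TB

/-!
# Row TTX of the board N4D: the frequency is `T / x`
-/

set_option autoImplicit false

open Finset Pool.Agent.H6.N4D

namespace Pool.Agent.H69.N4D

/-- the location after the doubling -/
theorem x_dbl (S : Par) (hJ : S.h * 2 ^ S.J = Real.log 2) (t : ℤ) :
    S.x (t + 2 ^ S.J) = 2 * S.x t := by
  rw [Par.x_add]
  push_cast
  rw [hJ, Real.exp_log (by norm_num)]
  ring

/-- **Row TTX.** -/
theorem pf_TTX (hSIZ : T_SIZ) : T_TTX := by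
  intro K _
  obtain ⟨X₀, hX₀⟩ := hSIZ
  refine ⟨X₀, ?_⟩
  intro S ε ε₀ ε₁ κ T θ φ hok _ hX _ he1 hHH hR
  obtain ⟨-, -, -, -, -, -, -, -, -, -, hl2, -, -⟩ := hX₀ S hok hX
  have hJ := hok.hJ
  have hr := hok.hr0
  have key : S.cnt (fun t => ¬ nd (θ t - T / S.x t) ≤ 3 * ε₁ / (S.rho * S.x t)) ≤
      S.cnt (fun t => ¬ (t + 2 ^ S.J ∈ S.I ∧
        nd (θ (t + 2 ^ S.J) - θ t - T * (Real.exp (-(2 ^ S.J * S.h)) - 1) / S.x t) ≤
          ε₁ / (S.rho * S.x t))) +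
      S.cnt (fun t => t + 2 ^ S.J ∈ S.I ∧
        (t + 2 ^ S.J - S.l 2 ∈ S.I ∧ ¬ OEd S ε₀ θ φ 2 (t + 2 ^ S.J))) := by
    apply Par.cnt_le_add
    intro t ht hbad
    by_contra hc
    rw [not_or, not_not] at hc
    obtain ⟨⟨h1, h2⟩, h3⟩ := hc
    apply hbad
    have h4 : OEd S ε₀ θ φ 2 (t + 2 ^ S.J) := by
      by_contra h5
      exact h3 ⟨h1, by rw [hl2, add_sub_cancel_right]; exact ht, h5⟩
    obtain ⟨h5, -⟩ := h4
    rw [hl2, add_sub_cancel_right, x_dbl S hJ t] at h5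
    have hx := S.x_pos t
    have hexp : Real.exp (-(2 ^ S.J * S.h)) = 1 / 2 := by
      rw [mul_comm, hJ, Real.exp_neg, Real.exp_log (by norm_num)]; norm_num
    rw [hexp] at h2
    have h6 : nd (θ t - ((2 : ℕ) : ℝ) * θ (t + 2 ^ S.J)) ≤ ε₀ / (S.rho * S.x t) := by
      refine h5.trans (le_of_eq ?_)
      push_cast
      rw [show S.rho * (2 * S.x t) = 2 * (S.rho * S.x t) by ring]
      exact mul_div_mul_left _ _ (by norm_num)
    have h7 := nd_nat_mul_le 2 (θ (t + 2 ^ S.J) - θ t - T * (1 / 2 - 1) / S.x t)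
    have h8 := nd_add_le (θ t - ((2 : ℕ) : ℝ) * θ (t + 2 ^ S.J))
      (((2 : ℕ) : ℝ) * (θ (t + 2 ^ S.J) - θ t - T * (1 / 2 - 1) / S.x t))
    have h9 : θ t - ((2 : ℕ) : ℝ) * θ (t + 2 ^ S.J) +
        ((2 : ℕ) : ℝ) * (θ (t + 2 ^ S.J) - θ t - T * (1 / 2 - 1) / S.x t) =
        -(θ t - T / S.x t) := by
      push_cast; ring
    rw [h9, nd_neg] at h8
    have h10 : ε₀ / (S.rho * S.x t) ≤ ε₁ / (S.rho * S.x t) := by gcongr
    have h11 : 3 * ε₁ / (S.rho * S.x t) = 3 * (ε₁ / (S.rho * S.x t)) := by ring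
    rw [h11]
    push_cast at h7 h8 h6
    linarith
  have hsh := Par.cnt_shift (S := S)
    (fun t => t - S.l 2 ∈ S.I ∧ ¬ OEd S ε₀ θ φ 2 t) (2 ^ S.J)
  have h1 := hR.two
  have h2 : S.cnt (fun t => ¬ (t + 2 ^ S.J ∈ S.I ∧
        nd (θ (t + 2 ^ S.J) - θ t - T * (Real.exp (-(2 ^ S.J * S.h)) - 1) / S.x t) ≤
          ε₁ / (S.rho * S.x t))) ≤ κ * S.N := hHH
  calc _ ≤ _ := key
    _ ≤ κ * S.N + ε * S.N := add_le_add h2 (hsh.trans h1)
    _ = _ := by ring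

end Pool.Agent.H69.N4D
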